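import Mathlib
import Pool.Agent.Lib.PiTranscendental
import Pool.Agent.Lib.AlgElim

/-!
# Tail ratios of `ζ(3)` and `ζ(2)`

For `n ≥ 1` let `ρ n = (∑_{k ≥ n} k⁻³) / (∑_{k ≥ n} k⁻²) ^ (3/2)`.  Then
`ρ 1 = 6 √6 · ζ(3) / π³`.  We show that at most one of the numbers
`ζ(3), ρ 1, ρ 2, ρ 3, …` is algebraic.
-/

open Polynomial

namespace Pool.Agent.Results.MP_e48a95_nt.TailRatios

/-- `tail j n = ∑_{k ≥ n} k⁻ʲ`. -/
noncomputable def tail (j n : ℕ) : ℝ := ∑' i : ℕ, 1 / ((n : ℝ) + i) ^ j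

/-- The tail ratio `(∑_{k ≥ n} k⁻³) / (∑_{k ≥ n} k⁻²) ^ (3/2)`. -/
noncomputable def tailRatio (n : ℕ) : ℝ := tail 3 n / (tail 2 n) ^ ((3 : ℝ) / 2)

/-- `ζ(3)`. -/
noncomputable def zetaThree : ℝ := ∑' i : ℕ, 1 / ((i : ℝ) + 1) ^ 3

lemma summable_tail (j n : ℕ) (hj : 2 ≤ j) : Summable (fun i : ℕ => 1 / ((n : ℝ) + i) ^ j) := by
  have h : Summable (fun i : ℕ => 1 / ((i : ℝ)) ^ j) :=
    Real.summable_one_div_nat_pow.2 (by omega)
  have := (summable_nat_add_iff n).2 h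
  refine this.congr ?_
  intro i
  push_cast
  rw [add_comm]

lemma tail_pos (j n : ℕ) (hj : 2 ≤ j) (hn : 1 ≤ n) : 0 < tail j n := by
  apply (summable_tail j n hj).tsum_pos (fun i => by positivity) 0
  have : (0 : ℝ) < n := by exact_mod_cast hn
  positivity

lemma tail_succ (j n : ℕ) (hj : 2 ≤ j) : tail j n = 1 / (n : ℝ) ^ j + tail j (n + 1) := by
  unfold tail
  rw [(summable_tail j n hj).tsum_eq_zero_add]
  congr 1
  · simp
  · apply tsum_congr
    intro i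
    push_cast
    ring_nf

/-- Partial sums, as rational numbers. -/
def part (j : ℕ) : ℕ → ℚ
  | 0 => 0
  | n + 1 => part j n + 1 / ((n : ℚ) + 1) ^ j

lemma tail_add_part (j n : ℕ) (hj : 2 ≤ j) : tail j (n + 1) = tail j 1 - (part j n : ℝ) := by
  induction n with
  | zero => simp [part]
  | succ n ih =>
    have h := tail_succ j (n + 1) hj
    rw [ih] at h
    simp only [part]
    push_cast at h ⊢
    linarith

lemma part_lt (j : ℕ) {n m : ℕ} (h : n < m) : part j n < part j m := by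
  induction m with
  | zero => omega
  | succ m ih =>
    have hpos : (0 : ℚ) < 1 / ((m : ℚ) + 1) ^ j := by positivity
    rcases Nat.lt_succ_iff_lt_or_eq.1 h with h' | h'
    · have := ih h'
      simp only [part]
      linarith
    · subst h'
      simp only [part]
      linarith

lemma zeta_two : tail 2 1 = Real.pi ^ 2 / 6 := by
  have h := hasSum_zeta_two.tsum_eq
  have hs : Summable (fun i : ℕ => 1 / ((i : ℝ)) ^ 2) := Real.summable_one_div_nat_pow.2 (by omega)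
  rw [hs.tsum_eq_zero_add] at h
  rw [← h]
  unfold tail
  simp only [Nat.cast_zero, Nat.cast_one]
  rw [show (1 : ℝ) / 0 ^ 2 = 0 by simp, zero_add]
  apply tsum_congr
  intro i
  push_cast
  rw [add_comm]

lemma zeta_three : tail 3 1 = zetaThree := by
  unfold tail zetaThree
  apply tsum_congr
  intro i
  push_cast
  rw [add_comm]

lemma not_alg_zeta_two : ¬ IsAlgebraic ℚ (tail 2 1) := by
  intro h
  rw [zeta_two] at h
  apply Pool.Agent.Lib.PiTranscendental.transcendental_real_pi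
  apply IsAlgebraic.of_pow (n := 2) (by norm_num)
  have : Real.pi ^ 2 = (Real.pi ^ 2 / 6) * (6 : ℕ) := by push_cast; ring
  rw [this]
  exact h.mul (Pool.Agent.Lib.AlgElim.isAlgebraic_nat 6)

/-- Two distinct cuspidal cubics with algebraic coefficients meet only in algebraic points. -/
lemma cusps (x y : ℝ) (t r t' r' : ℚ) (hr : r ≠ r') (a b : ℝ) (ha0 : a ≠ 0)
    (ha : IsAlgebraic ℚ a) (hb : IsAlgebraic ℚ b)
    (h1 : (y - r) ^ 2 = a * (x - t) ^ 3) (h2 : (y - r') ^ 2 = b * (x - t') ^ 3) :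
    IsAlgebraic ℚ x := by
  open Pool.Agent.Lib.AlgElim in
  -- `y = P(x)`
  have hr' : (r : ℝ) - r' ≠ 0 := by
    intro h
    apply hr
    have : (r : ℝ) = r' := by linarith
    exact_mod_cast this
  set c : ℝ := 1 / (2 * ((r : ℝ) - r')) with hc
  have hcalg : IsAlgebraic ℚ c := by
    have : c = ((1 / (2 * (r - r')) : ℚ) : ℝ) := by push_cast; rfl
    rw [this]
    exact isAlgebraic_rat _
  set P : ℝ[X] := C c * (C b * (X - C (t' : ℝ)) ^ 3 - C a * (X - C (t : ℝ)) ^ 3 +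
    C ((r : ℝ) ^ 2 - (r' : ℝ) ^ 2)) with hP
  have hy : y = P.eval x := by
    simp only [hP, eval_mul, eval_add, eval_sub, eval_pow, eval_C, eval_X]
    rw [← h1, ← h2, hc]
    field_simp
    ring
  set Q : ℝ[X] := (P - C (r : ℝ)) ^ 2 - C a * (X - C (t : ℝ)) ^ 3 with hQ
  have hQ0 : Q ≠ 0 := by
    intro h
    have h3 : (P - C (r : ℝ)) ^ 2 = C a * (X - C (t : ℝ)) ^ 3 := by
      rw [hQ] at h
      exact sub_eq_zero.1 h
    have h4 := congrArg natDegree h3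
    rw [natDegree_pow, natDegree_C_mul ha0, natDegree_pow, natDegree_X_sub_C] at h4
    omega
  have hrat : ∀ q : ℚ, IsAlgebraic ℚ (q : ℝ) := fun q => isAlgebraic_rat q
  have hX : ∀ q : ℚ, AlgCoeff (X - C (q : ℝ) : ℝ[X]) := fun q => AlgCoeff.X.sub (AlgCoeff.C (hrat q))
  have hPa : AlgCoeff P := by
    apply (AlgCoeff.C hcalg).mul
    refine AlgCoeff.add (AlgCoeff.sub ((AlgCoeff.C hb).mul ((hX t').pow 3))
      ((AlgCoeff.C ha).mul ((hX t).pow 3))) (AlgCoeff.C ?_)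
    have := hrat (r ^ 2 - r' ^ 2)
    push_cast at this
    exact this
  have hQa : AlgCoeff Q := ((hPa.sub (AlgCoeff.C (hrat r))).pow 2).sub
    ((AlgCoeff.C ha).mul ((hX t).pow 3))
  apply hQa.isAlgebraic_of_root hQ0
  simp only [hQ, eval_sub, eval_mul, eval_pow, eval_C, eval_X]
  rw [← hy, h1]
  ring

lemma sq_tailRatio (n : ℕ) (hn : 1 ≤ n) : (tailRatio n) ^ 2 = (tail 3 n) ^ 2 / (tail 2 n) ^ 3 := by
  unfold tailRatio
  rw [div_pow, ← Real.rpow_natCast ((tail 2 n) ^ ((3 : ℝ) / 2)) 2,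
    ← Real.rpow_mul (tail_pos 2 n le_rfl hn).le]
  norm_num

lemma tailRatio_pos (n : ℕ) (hn : 1 ≤ n) : 0 < tailRatio n :=
  div_pos (tail_pos 3 n (by norm_num) hn) (Real.rpow_pos_of_pos (tail_pos 2 n le_rfl hn) _)

lemma cubic (n : ℕ) : (zetaThree - (part 3 n : ℝ)) ^ 2 =
    (tailRatio (n + 1)) ^ 2 * (tail 2 1 - (part 2 n : ℝ)) ^ 3 := by
  rw [← zeta_three, ← tail_add_part 3 n (by norm_num), ← tail_add_part 2 n le_rfl,
    sq_tailRatio (n + 1) (by omega)]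
  have := (tail_pos 2 (n + 1) le_rfl (by omega)).ne'
  field_simp

lemma two_ratios {n m : ℕ} (hnm : n ≠ m) (hn : IsAlgebraic ℚ (tailRatio (n + 1)))
    (hm : IsAlgebraic ℚ (tailRatio (m + 1))) : False := by
  apply not_alg_zeta_two
  refine cusps (tail 2 1) zetaThree (part 2 n) (part 3 n) (part 2 m) (part 3 m) ?_
    ((tailRatio (n + 1)) ^ 2) ((tailRatio (m + 1)) ^ 2) ?_ (hn.pow 2) (hm.pow 2) (cubic n) (cubic m)
  · rcases lt_or_gt_of_ne hnm with h | h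
    · exact (part_lt 3 h).ne
    · exact (part_lt 3 h).ne'
  · exact pow_ne_zero 2 (tailRatio_pos (n + 1) (by omega)).ne'

lemma zeta_and_ratio {n : ℕ} (hz : IsAlgebraic ℚ zetaThree)
    (hn : IsAlgebraic ℚ (tailRatio (n + 1))) : False := by
  open Pool.Agent.Lib.AlgElim in
  have h0 : (tailRatio (n + 1)) ^ 2 ≠ 0 := pow_ne_zero 2 (tailRatio_pos (n + 1) (by omega)).ne'
  have h1 : IsAlgebraic ℚ ((tail 2 1 - (part 2 n : ℝ)) ^ 3) := by
    have : (tail 2 1 - (part 2 n : ℝ)) ^ 3 =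
        (zetaThree - (part 3 n : ℝ)) ^ 2 / (tailRatio (n + 1)) ^ 2 := by
      rw [cubic n, mul_comm, mul_div_assoc, div_self h0, mul_one]
    rw [this]
    exact isAlgebraic_div ((hz.sub (isAlgebraic_rat _)).pow 2) (hn.pow 2)
  have h2 : IsAlgebraic ℚ (tail 2 1 - (part 2 n : ℝ)) := IsAlgebraic.of_pow (by norm_num) h1
  apply not_alg_zeta_two
  have := h2.add (isAlgebraic_rat (E := ℝ) (part 2 n))
  simpa using this

lemma tailRatio_one : tailRatio 1 = 6 * √6 * (zetaThree / Real.pi ^ 3) := by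
  unfold tailRatio
  rw [zeta_two, zeta_three]
  have hpi := Real.pi_pos
  have h6 : (0 : ℝ) < √6 := Real.sqrt_pos.2 (by norm_num)
  have h66 : √6 * √6 = (6 : ℝ) := Real.mul_self_sqrt (by norm_num)
  have h1 : (Real.pi ^ 2 / 6) ^ ((3 : ℝ) / 2) = (Real.pi / √6) ^ 3 := by
    have : Real.pi ^ 2 / 6 = (Real.pi / √6) ^ 2 := by
      rw [div_pow, Real.sq_sqrt (by norm_num : (0 : ℝ) ≤ 6)]
    rw [this, ← Real.rpow_natCast (Real.pi / √6) 2, ← Real.rpow_mul (by positivity)]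
    norm_num
  rw [h1, div_pow]
  have h63 : √6 ^ 3 = 6 * √6 := by
    rw [pow_succ, Real.sq_sqrt (by norm_num : (0 : ℝ) ≤ 6)]
  rw [h63]
  field_simp

/-- At most one of the numbers `ζ(3), ρ(1), ρ(2), ρ(3), …` is algebraic, where
`ρ(n) = (∑_{k ≥ n} k⁻³) / (∑_{k ≥ n} k⁻²) ^ (3/2)`, and `ρ(1) = 6 √6 · ζ(3) / π³`. -/
theorem result :
    (∀ n m : ℕ, 1 ≤ n → 1 ≤ m → IsAlgebraic ℚ (tailRatio n) → IsAlgebraic ℚ (tailRatio m) →
      n = m) ∧
    (∀ n : ℕ, 1 ≤ n → ¬ (IsAlgebraic ℚ zetaThree ∧ IsAlgebraic ℚ (tailRatio n))) ∧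
    tailRatio 1 = 6 * √6 * (zetaThree / Real.pi ^ 3) := by
  refine ⟨?_, ?_, tailRatio_one⟩
  · intro n m hn hm h1 h2
    obtain ⟨n, rfl⟩ : ∃ k, n = k + 1 := ⟨n - 1, by omega⟩
    obtain ⟨m, rfl⟩ : ∃ k, m = k + 1 := ⟨m - 1, by omega⟩
    by_contra hne
    exact two_ratios (fun h => hne (by rw [h])) h1 h2
  · rintro n hn ⟨h1, h2⟩
    obtain ⟨n, rfl⟩ : ∃ k, n = k + 1 := ⟨n - 1, by omega⟩
    exact zeta_and_ratio h1 h2

end Pool.Agent.Results.MP_e48a95_nt.TailRatios
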